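import Pool.Agent.H61.SC.All
import Pool.Agent.H77.SC.INF

/-!
# MP_dbd530_pr: superconcentration of the maximal flow in thinner cylinders, d = 3, ε > 3/5
-/

namespace Pool.Agent.Results.MP_dbd530_pr.ThinCylinders

open MeasureTheory ProbabilityTheory Pool.SC

/-- In dimension `d = 3`, for every law on `{a, b}` with `0 < a < b`, every `ε > 3 / 5` and every
`c > 0` there is `C` such that the maximal flow through `[0,n]^2 x [0,H]` has variance at most
`C n^2 / log n` for all `n ≥ 2` and all `H ≥ c n^ε`. -/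
theorem result (a b p : ℝ) (ha : 0 < a) (hab : a < b) (hp0 : 0 ≤ p) (hp1 : p ≤ 1)
    (ε c : ℝ) (hε : 3 / 5 < ε) (hc : 0 < c) :
    ∃ C : ℝ, ∀ (Ω : Type*) [MeasurableSpace Ω] (P : Measure Ω) [IsProbabilityMeasure P]
      (t : Sym2 Vert → Ω → ℝ), (∀ e, Measurable (t e)) → iIndepFun t P →
      (∀ e, P {ω | t e ω = b} = ENNReal.ofReal p ∧ P {ω | t e ω = a} = ENNReal.ofReal (1 - p)) →
      ∀ n H : ℕ, 2 ≤ n → c * (n : ℝ) ^ ε ≤ H →
        variance (fun ω => maxFlow n H (fun e => t e ω)) P ≤ C * ((n : ℝ) ^ 2 / Real.log n) :=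
  main_of_inf (inf_thm cut_thm sup_thm cel_thm inv_thm nu_thm) a b p ha hab hp0 hp1 ε c hε hc

end Pool.Agent.Results.MP_dbd530_pr.ThinCylinders
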